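import Pool.Agent.HypVol.L_entropy_K

namespace Pool.Agent.Results.MP_b56574_an.EntropyLower

open MeasureTheory
open scoped ENNReal

/-- Normalised Lebesgue measure on the torus `[0,2π)^d`. -/
noncomputable def TP (d : ℕ) : Measure (Fin d → ℝ) :=
  Measure.pi (fun _ : Fin d => ENNReal.ofReal (2 * Real.pi)⁻¹ •
    volume.restrict (Set.Ico 0 (2 * Real.pi)))

/-- Bernoulli kernel `1 + 2 ∑_{k ≥ 1} k^(-r) cos(k x - α π/2)` in one variable. -/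
noncomputable def F1 (r α x : ℝ) : ℝ :=
  1 + 2 * ∑' k : ℕ, ((k:ℝ)+1)^(-r) * Real.cos (((k:ℝ)+1) * x - α * Real.pi / 2)

/-- The kernel in `d` variables. -/
noncomputable def Fr {d : ℕ} (r : ℝ) (α x : Fin d → ℝ) : ℝ := ∏ j, F1 r (α j) (x j)

/-- The class `MW^r_{q,α}` of functions with bounded mixed derivative, with values in `𝕜`
(the real or the complex numbers). -/
def MW (𝕜 : Type) [RCLike 𝕜] (d : ℕ) (r : ℝ) (q : ℝ≥0∞) (α : Fin d → ℝ) :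
    Set ((Fin d → ℝ) → 𝕜) :=
  {f | ∃ φ : (Fin d → ℝ) → 𝕜, MemLp φ q (TP d) ∧ eLpNorm φ q (TP d) ≤ 1 ∧
    f = fun x => ∫ y, Fr r α (x - y) • φ y ∂(TP d)}

/-- The `k`-th entropy number of `Θ` in `L_∞`: infimum of the `ε > 0` such that `Θ` is covered by
`2^k` balls of radius `ε` with centres in `Θ`. -/
noncomputable def entropyNum {𝕜 : Type} [RCLike 𝕜] {d : ℕ} (k : ℕ) (Θ : Set ((Fin d → ℝ) → 𝕜)) :
    ℝ≥0∞ :=
  ⨅ (ε : ℝ≥0∞) (_ : 0 < ε ∧ ∃ c : Fin (2^k) → ((Fin d → ℝ) → 𝕜), (∀ j, c j ∈ Θ) ∧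
    ∀ f ∈ Θ, ∃ j, eLpNorm (fun x => f x - c j x) ⊤ (TP d) ≤ ε), ε

/-- For every `d ≥ 3` and `1 < q < ∞` there is `r₀` such that for all `r > r₀` and all `α`,
`ε_k(MW^r_{q,α}, L_∞) ≥ c k^(-r) (ln k)^((d-1) r + 1/2)` for all `k ≥ 2`. -/
theorem result (𝕜 : Type) [RCLike 𝕜] (d : ℕ) (hd : 3 ≤ d) (q : ℝ) (hq : 1 < q) :
    ∃ r₀ : ℝ, ∀ r : ℝ, r₀ < r → ∀ α : Fin d → ℝ, ∃ c : ℝ, 0 < c ∧ ∀ k : ℕ, 2 ≤ k →
      ENNReal.ofReal (c * (k:ℝ)^(-r) * (Real.log k)^(((d:ℝ)-1) * r + 1/2))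
        ≤ entropyNum k (MW 𝕜 d r (ENNReal.ofReal q) α) :=
  ⟨1, fun r hr α => HypVol.entropy_lower 𝕜 d hd q r hq.le hr α⟩

end Pool.Agent.Results.MP_b56574_an.EntropyLower
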